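import Pool.Agent.ISO.StmtsM

/-!
# Squad ISO, row MVE: the class of the point acts trivially
-/

set_option autoImplicit false

namespace Pool.Agent.ISO.H36

open MvPolynomial Pool.Agent.Helper6_Mono

section

variable {k : Type} [Field k] {σ : Type}

theorem ev_rename {ι ι' : Type} (g : ι → ι') {S : Type} [CommRing S] [Algebra k S] (x : ι' → S)
    (e : MvPolynomial ι k) : ev x (rename g e) = ev (fun j => x (g j)) e := by
  unfold ev
  rw [aeval_rename]
  rfl

theorem ev_C {ι : Type} {S : Type} [CommRing S] [Algebra k S] (x : ι → S) (a : k) :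
    ev x (C a : MvPolynomial ι k) = algebraMap k S a := by
  unfold ev
  rw [aeval_C]

theorem ev_X {ι : Type} {S : Type} [CommRing S] [Algebra k S] (x : ι → S) (i : ι) :
    ev x (X i : MvPolynomial ι k) = x i := by
  unfold ev
  rw [aeval_X]

theorem ev_sub {ι : Type} {S : Type} [CommRing S] [Algebra k S] (x : ι → S)
    (a b : MvPolynomial ι k) : ev x (a - b) = ev x a - ev x b := by
  unfold ev
  rw [map_sub]

theorem ev_zero {S : Type} [CommRing S] [Algebra k S] (g : MvPolynomial σ k)
    (hg : eval (0 : σ → k) g = 0) : ev (fun _ : σ => (0 : S)) g = 0 := by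
  unfold ev
  have h1 : (aeval (fun _ : σ => (0 : S)) : MvPolynomial σ k →ₐ[k] S) =
      (Algebra.ofId k S).comp (aeval (0 : σ → k)) := by
    apply algHom_ext
    intro i
    rw [AlgHom.comp_apply, aeval_X, aeval_X, Pi.zero_apply, map_zero]
  have h2 : aeval (fun _ : σ => (0 : S)) g = algebraMap k S (eval 0 g) := by
    rw [h1, AlgHom.comp_apply]
    rfl
  rw [h2, hg, map_zero]

end

theorem mve : MveStmt := by
  intro k _ σ _ f f1 p hp h0 V
  refine ⟨⟨fun S _ _ x => ⟨fun j => x.crd (Sum.inr j), ?_⟩, ?_⟩, ?_, ?_, ?_⟩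
  · intro e he
    have h1 := x.eq (rename Sum.inr e) (Or.inr (Or.inl ⟨e, he, rfl⟩))
    exact (ev_rename Sum.inr x.crd e).symm.trans h1
  · intro S _ _
    constructor
    · intro x x' hxx
      have hl : ∀ (z : ((mv f p hp (GSch.base f1)).prod (mv f p hp V)).Pt S) (i : σ),
          z.crd (Sum.inl i) = 0 := by
        intro z i
        have h1 := z.eq (rename Sum.inl (X i)) (Or.inl ⟨X i, Or.inr ⟨i, rfl⟩, rfl⟩)
        have h2 := (ev_rename Sum.inl z.crd (X i : MvPolynomial σ k)).symm.trans h1
        exact (ev_X (k := k) (fun j => z.crd (Sum.inl j)) i).symm.trans h2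
      have hr : ∀ j : V.Idx, x.crd (Sum.inr j) = x'.crd (Sum.inr j) := by
        intro j
        have h2 := congrArg GSch.Pt.crd hxx
        exact congrFun h2 j
      have hc : x.crd = x'.crd := by
        funext i
        rcases i with i | j
        · rw [hl x i, hl x' i]
        · exact hr j
      cases x
      cases x'
      simp only at hc
      subst hc
      rfl
    · intro y
      refine ⟨⟨Sum.elim (fun _ => 0) y.crd, ?_⟩, rfl⟩
      intro e he
      rcases he with ⟨e', he', rfl⟩ | ⟨e', he', rfl⟩ | ⟨i, rfl⟩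
      · refine (ev_rename (k := k) Sum.inl (Sum.elim (fun _ : σ => (0 : S)) y.crd) e').trans ?_
        rcases he' with he' | ⟨i, rfl⟩
        · have he'' : e' = f1 := he'
          rw [he'']
          exact ev_zero f1 h0
        · exact ev_X _ _
      · exact (ev_rename (k := k) Sum.inr (Sum.elim (fun _ : σ => (0 : S)) y.crd) e').trans
          (y.eq e' he')
      · refine (ev_sub _ _ _).trans ?_
        have t1 := (ev_rename (k := k) Sum.inl (Sum.elim (fun _ : σ => (0 : S)) y.crd)
          (C (p i) : MvPolynomial σ k)).trans (ev_C _ _)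
        have t2 := (ev_rename (k := k) Sum.inr (Sum.elim (fun _ : σ => (0 : S)) y.crd)
          (C (p i) : MvPolynomial V.Idx k)).trans (ev_C _ _)
        exact (congrArg₂ (fun a b => a - b) t1 t2).trans (sub_self _)
  · intro S S' _ _ _ _ φ x x' h i
    exact h (Sum.inr i)
  · intro S _ _ c x x' h i
    exact h (Sum.inr i)
  · intro S _ _ x i
    have t1 := (ev_rename (k := k) Sum.inl x.crd (C (p i) : MvPolynomial σ k)).trans (ev_C _ _)
    exact (ev_C (k := k) _ (p i)).trans t1.symm

end Pool.Agent.ISO.H36
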